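import Pool.Agent.Y605.OD.Mem
import Pool.Agent.NPC.Dec

/-!
# Orthogonal representations in dimension at most two: polynomial time
-/

namespace Pool.Agent.NPC.Y605OD

open Pool.Agent.NPC Pool.Agent.H670R2 Pool.Agent.Y605.OD
open Pool.Agent.NPC.H670R2 (chk chk_iff poly_chk)

/-- orthogonal vectors of the plane to a nonzero vector are parallel -/
theorem par_of_orth {a b c : EuclideanSpace ℝ (Fin 2)} (ha : a ≠ 0) (hc : c ≠ 0)
    (h1 : inner ℝ a b = 0) (h2 : inner ℝ a c = 0) : ∃ r : ℝ, b = r • c := by
  rw [PiLp.inner_apply, Fin.sum_univ_two] at h1 h2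
  simp only [RCLike.inner_apply, conj_trivial] at h1 h2
  have h3 : a 0 ≠ 0 ∨ a 1 ≠ 0 := by
    by_contra hcon
    push Not at hcon
    refine ha ?_
    ext i
    fin_cases i
    · simpa using hcon.1
    · simpa using hcon.2
  have key : b 0 * c 1 = b 1 * c 0 := by
    rcases h3 with h | h
    · have : a 0 * (b 0 * c 1 - b 1 * c 0) = 0 := by linear_combination c 1 * h1 - b 1 * h2
      rcases mul_eq_zero.1 this with h4 | h4
      · exact absurd h4 h
      · linarith
    · have : a 1 * (b 0 * c 1 - b 1 * c 0) = 0 := by linear_combination b 0 * h2 - c 0 * h1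
      rcases mul_eq_zero.1 this with h4 | h4
      · exact absurd h4 h
      · linarith
  refine (par_iff hc).2 fun i j => ?_
  fin_cases i <;> fin_cases j
  · rfl
  · exact key
  · exact key.symm
  · rfl

/-- every list has at most one member -/
def mt (L : List (List ℕ)) : Bool := L.all fun l => l.all fun v => l.all fun w => decide (v = w)

theorem mt_iff (L : List (List ℕ)) : mt L = true ↔
    ∀ u < L.length, ∀ v ∈ L.getD u [], ∀ w ∈ L.getD u [], v = w := by
  unfold mt
  simp only [List.all_eq_true, decide_eq_true_eq]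
  constructor
  · intro h u hu
    rw [List.getD_eq_getElem _ _ hu]
    exact h _ (List.getElem_mem hu)
  · intro h l hl
    obtain ⟨u, hu, rfl⟩ := List.getElem_of_mem hl
    have := h u hu
    rw [List.getD_eq_getElem _ _ hu] at this
    exact this

theorem two_iff (L : List (List ℕ)) : OrthP 2 L ↔ (chk L && mt L) = true := by
  classical
  rw [Bool.and_eq_true, mt_iff]
  constructor
  · rintro ⟨h, φ, h1, h2, h3⟩
    refine ⟨(chk_iff L).2 h, fun u hu v hv w hw => ?_⟩
    by_contra hvw
    have hv' := (h u v hu hv).1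
    have hw' := (h u w hu hw).1
    obtain ⟨r, hr⟩ := par_of_orth (h1 ⟨u, hu⟩) (h1 ⟨w, hw'⟩) (h3 ⟨u, hu⟩ ⟨v, hv'⟩ hv)
      (h3 ⟨u, hu⟩ ⟨w, hw'⟩ hw)
    exact h2 ⟨v, hv'⟩ ⟨w, hw'⟩ (fun e => hvw (congrArg Fin.val e)) r hr
  · rintro ⟨hc, hm⟩
    have h := (chk_iff L).1 hc
    refine ⟨h, ?_⟩
    set P : Fin L.length → Fin L.length → Prop := fun u v => v.val ∈ L.getD u.val [] with hP
    have hsym : ∀ u v, P u v → P v u := fun u v huv => (h u.1 v.1 u.2 huv).2.2
    have huni : ∀ u v w, P u v → P u w → v = w := fun u v w hv hw =>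
      Fin.ext (hm u.1 u.2 v.1 hv w.1 hw)
    have hirr : ∀ u, ¬ P u u := fun u huu => (h u.1 u.1 u.2 huu).2.1 rfl
    -- the vectors
    set f : Fin L.length → EuclideanSpace ℝ (Fin 2) := fun u =>
      if hu : ∃ v, P u v ∧ v < u then !₂[-((hu.choose.val : ℝ) + 1), 1]
      else !₂[1, (u.val : ℝ) + 1] with hf
    have f1 : ∀ u v, P u v → v < u → f u = !₂[-((v.val : ℝ) + 1), 1] := by
      intro u v huv hvu
      have hu : ∃ v, P u v ∧ v < u := ⟨v, huv, hvu⟩
      have e : hu.choose = v := huni u _ _ hu.choose_spec.1 huv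
      simp only [hf]
      rw [dif_pos hu, e]
    have f2 : ∀ u, (¬ ∃ v, P u v ∧ v < u) → f u = !₂[1, (u.val : ℝ) + 1] := by
      intro u hu
      simp only [hf]
      rw [dif_neg hu]
    have pos : ∀ u : Fin L.length, (0 : ℝ) < (u.val : ℝ) + 1 := fun u => by positivity
    have det : ∀ u v, u ≠ v → f u 0 * f v 1 - f u 1 * f v 0 ≠ 0 := by
      intro u v huv
      by_cases hu : ∃ w, P u w ∧ w < u
      · obtain ⟨w, hw1, hw2⟩ := hu
        by_cases hv : ∃ w, P v w ∧ w < v
        · obtain ⟨w', hw1', hw2'⟩ := hv
          rw [f1 u w hw1 hw2, f1 v w' hw1' hw2']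
          have hne : w ≠ w' := by
            rintro rfl
            exact huv (huni w _ _ (hsym _ _ hw1) (hsym _ _ hw1'))
          have hne2 : (w.val : ℝ) ≠ (w'.val : ℝ) := fun e =>
            hne (Fin.ext (by exact_mod_cast e))
          simp
          intro e
          apply hne2
          linarith
        · rw [f1 u w hw1 hw2, f2 v hv]
          have := mul_pos (pos w) (pos v)
          simp
          intro e
          nlinarith
      · by_cases hv : ∃ w, P v w ∧ w < v
        · obtain ⟨w', hw1', hw2'⟩ := hv
          rw [f2 u hu, f1 v w' hw1' hw2']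
          have := mul_pos (pos w') (pos u)
          simp
          intro e
          nlinarith
        · rw [f2 u hu, f2 v hv]
          have hne2 : (u.val : ℝ) ≠ (v.val : ℝ) := fun e =>
            huv (Fin.ext (by exact_mod_cast e))
          simp
          intro e
          apply hne2
          linarith
    refine ⟨f, ?_, ?_, ?_⟩
    · intro u hu0
      by_cases hu : ∃ w, P u w ∧ w < u
      · obtain ⟨w, hw1, hw2⟩ := hu
        rw [f1 u w hw1 hw2] at hu0
        have := congrArg (fun z => z 1) hu0
        simp at this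
      · rw [f2 u hu] at hu0
        have := congrArg (fun z => z 0) hu0
        simp at this
    · intro u v huv c hcon
      apply det u v huv
      rw [hcon]
      simp only [PiLp.smul_apply, smul_eq_mul]
      ring
    · have main : ∀ u v, P u v → v < u → inner ℝ (f u) (f v) = 0 := by
        intro u v huv hvu
        have hv : ¬ ∃ w, P v w ∧ w < v := by
          rintro ⟨w, hw1, hw2⟩
          have : w = u := huni v _ _ hw1 (hsym _ _ huv)
          subst this
          exact absurd (lt_trans hw2 hvu) (lt_irrefl _)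
        rw [f1 u v huv hvu, f2 v hv, PiLp.inner_apply, Fin.sum_univ_two]
        simp
      intro u v huv
      rcases lt_trichotomy u v with h4 | h4 | h4
      · rw [real_inner_comm]
        exact main v u (hsym _ _ huv) h4
      · subst h4
        exact absurd huv (hirr u)
      · exact main u v huv h4

theorem low_iff (d : ℕ) (hd : d ≤ 1) (L : List (List ℕ)) :
    OrthP d L ↔ (chk L && decide (L.length ≤ d)) = true := by
  rw [Bool.and_eq_true, decide_eq_true_eq]
  constructor
  · rintro ⟨h, φ, h1, h2, h3⟩
    refine ⟨(chk_iff L).2 h, ?_⟩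
    by_contra hcon
    push Not at hcon
    rcases Nat.lt_or_ge d 1 with h4 | h4
    · have h5 : d = 0 := by omega
      subst h5
      exact h1 ⟨0, hcon⟩ (Subsingleton.elim _ _)
    · have h5 : d = 1 := by omega
      subst h5
      have hb := h1 ⟨1, hcon⟩
      obtain ⟨c, hc⟩ := (par_iff (a := φ ⟨0, by omega⟩) hb).2 fun i j => by
        rw [Subsingleton.elim i j]
      exact h2 ⟨0, by omega⟩ ⟨1, hcon⟩ (by simp) c hc
  · rintro ⟨hc, hl⟩
    have h := (chk_iff L).1 hc
    refine ⟨h, fun _ => WithLp.toLp 2 (fun _ => 1), fun v hv => ?_, fun u v huv => ?_,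
      fun u v huv => ?_⟩
    · have h4 : 0 < d := by have := v.isLt; omega
      have := congrArg (fun z => z ⟨0, h4⟩) hv
      simp at this
    · exfalso
      apply huv
      apply Fin.ext
      have := u.isLt
      have := v.isLt
      omega
    · exfalso
      have h4 := (graphOf L h).ne_of_adj huv
      apply h4
      apply Fin.ext
      have := u.isLt
      have := v.isLt
      omega

theorem poly_mt : Poly mt := by
  unfold mt
  refine Poly.all (l := fun L : List (List ℕ) => L)
    (p := fun _ l => l.all fun v => l.all fun w => decide (v = w)) Poly.id ?_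
  refine Poly.all (l := fun q : List (List ℕ) × List ℕ => q.2)
    (p := fun q v => q.2.all fun w => decide (v = w)) (Poly.snd Poly.id) ?_
  exact Poly.all (l := fun q : (List (List ℕ) × List ℕ) × ℕ => q.1.2)
    (p := fun q w => decide (q.2 = w)) (Poly.snd (Poly.fst Poly.id))
    (Poly.decide_eq (Poly.snd (Poly.fst Poly.id)) (Poly.snd Poly.id))

theorem low (d : ℕ) (hd : d ≤ 2) : InP (lang (OrthP d)) := by
  rcases Nat.lt_or_ge d 2 with h | h
  · exact inPP_of (d := fun L => chk L && decide (L.length ≤ d))
      (Poly.and poly_chk (Poly.decide_le (Poly.length Poly.id) (Poly.const d)))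
      (fun L => low_iff d (by omega) L)
  · obtain rfl : d = 2 := by omega
    exact inPP_of (d := fun L => chk L && mt L) (Poly.and poly_chk poly_mt) (fun L => two_iff L)

end Pool.Agent.NPC.Y605OD
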