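import Mathlib
import Pool.Agent.H670R2.OrthDefs

/-!
# Orthogonal representations in `ℝ^d` and universal vertices
-/

namespace Pool.Agent.Y605.OD

open Pool.Agent.H670R2

/-- `φ` is an orthogonal representation of `G` in `ℝ^d`: nonzero vectors, neither of two vectors of
distinct vertices is a scalar multiple of the other, and adjacent vertices have orthogonal
vectors. -/
def IsOrthRepIn (d : ℕ) {V : Type} (G : SimpleGraph V) (φ : V → EuclideanSpace ℝ (Fin d)) : Prop :=
  (∀ v, φ v ≠ 0) ∧ (∀ u v, u ≠ v → ∀ c : ℝ, φ u ≠ c • φ v) ∧
    ∀ u v, G.Adj u v → inner ℝ (φ u) (φ v) = 0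

/-- The same for vectors in any space. -/
def RepIn {V : Type} (E : Type) [NormedAddCommGroup E] [InnerProductSpace ℝ E] (G : SimpleGraph V)
    (φ : V → E) : Prop :=
  (∀ v, φ v ≠ 0) ∧ (∀ u v, u ≠ v → ∀ c : ℝ, φ u ≠ c • φ v) ∧
    ∀ u v, G.Adj u v → inner ℝ (φ u) (φ v) = 0

/-- Representations are transported by linear isometries. -/
theorem RepIn.map {V : Type} {E F : Type} [NormedAddCommGroup E] [InnerProductSpace ℝ E]
    [NormedAddCommGroup F] [InnerProductSpace ℝ F] {G : SimpleGraph V} {φ : V → E}
    (h : RepIn E G φ) (L : E →ₗᵢ[ℝ] F) : RepIn F G (fun v => L (φ v)) := by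
  refine ⟨fun v hv => h.1 v ?_, fun u v huv c hc => h.2.1 u v huv c ?_, fun u v huv => ?_⟩
  · exact (map_eq_zero_iff L L.injective).1 hv
  · rw [← map_smul] at hc
    exact L.injective hc
  · rw [LinearIsometry.inner_map_map]
    exact h.2.2 u v huv

/-- Adding a universal vertex raises the dimension by one. -/
theorem rep_succ {n d : ℕ} (G : SimpleGraph (Fin n)) (G' : SimpleGraph (Fin (n + 1)))
    (hold : ∀ u v : Fin n, G'.Adj u.castSucc v.castSucc ↔ G.Adj u v)
    (hnew : ∀ u : Fin n, G'.Adj u.castSucc (Fin.last n)) :
    (∃ φ, RepIn (EuclideanSpace ℝ (Fin (d + 1))) G' φ) ↔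
      ∃ φ, RepIn (EuclideanSpace ℝ (Fin d)) G φ := by
  constructor
  · rintro ⟨φ, h1, h2, h3⟩
    set w := φ (Fin.last n) with hw
    have hw0 : w ≠ 0 := h1 _
    have hmem : ∀ u : Fin n, φ u.castSucc ∈ (ℝ ∙ w)ᗮ := by
      intro u
      rw [Submodule.mem_orthogonal_singleton_iff_inner_left]
      exact h3 _ _ (hnew u)
    have : Fact (Module.finrank ℝ (EuclideanSpace ℝ (Fin (d + 1))) = d + 1) := ⟨by simp⟩
    let b := OrthonormalBasis.fromOrthogonalSpanSingleton (𝕜 := ℝ) d hw0
    have hrep : RepIn ((ℝ ∙ w)ᗮ : Submodule ℝ (EuclideanSpace ℝ (Fin (d + 1)))) G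
        (fun u => ⟨φ u.castSucc, hmem u⟩) := by
      refine ⟨fun v hv => h1 v.castSucc (congrArg Subtype.val hv), fun u v huv c hc => ?_,
        fun u v huv => ?_⟩
      · exact h2 u.castSucc v.castSucc (fun h => huv (Fin.castSucc_injective _ h)) c
          (congrArg Subtype.val hc)
      · exact h3 _ _ ((hold u v).2 huv)
    exact ⟨_, hrep.map b.repr.toLinearIsometry⟩
  · rintro ⟨φ, h⟩
    set e : EuclideanSpace ℝ (Fin d) → EuclideanSpace ℝ (Fin (d + 1)) := fun x =>
      WithLp.toLp 2 (Fin.snoc (α := fun _ => ℝ) (fun i => x i) 0) with he
    have e1 : ∀ x i, e x (Fin.castSucc i) = x i := fun x i => by simp [he]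
    have e2 : ∀ x, e x (Fin.last d) = 0 := fun x => by simp [he]
    set l : EuclideanSpace ℝ (Fin (d + 1)) := EuclideanSpace.single (Fin.last d) 1 with hl
    have hinner : ∀ x y, inner ℝ (e x) (e y) = inner ℝ x y := by
      intro x y
      rw [PiLp.inner_apply, PiLp.inner_apply, Fin.sum_univ_castSucc]
      simp only [e1, e2]
      simp
    have hel : ∀ x, inner ℝ (e x) l = 0 := by
      intro x
      rw [PiLp.inner_apply, Fin.sum_univ_castSucc]
      simp only [e1, e2, hl]
      simp
    have hinj : ∀ x y (c : ℝ), e x = c • e y → x = c • y := by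
      intro x y c hc
      ext i
      have := congrArg (fun z => z (Fin.castSucc i)) hc
      simp only [PiLp.smul_apply, e1] at this
      simpa using this
    have he0 : ∀ x, e x = 0 → x = 0 := by
      intro x hx
      ext i
      have := congrArg (fun z => z (Fin.castSucc i)) hx
      simp only [e1] at this
      simpa using this
    have hl0 : l ≠ 0 := by
      intro h0
      have := congrArg (fun z => z (Fin.last d)) h0
      simp [hl] at this
    obtain ⟨h1, h2, h3⟩ := h
    refine ⟨fun v => Fin.lastCases (motive := fun _ => EuclideanSpace ℝ (Fin (d + 1))) l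
      (fun u => e (φ u)) v, ?_, ?_, ?_⟩
    · intro v
      induction v using Fin.lastCases with
      | last => simpa using hl0
      | cast u =>
        simp only [Fin.lastCases_castSucc]
        exact fun h0 => h1 u (he0 _ h0)
    · intro u v huv c
      induction u using Fin.lastCases with
      | last =>
        induction v using Fin.lastCases with
        | last => exact absurd rfl huv
        | cast v =>
          simp only [Fin.lastCases_last, Fin.lastCases_castSucc]
          intro hc
          have := congrArg (fun z => z (Fin.last d)) hc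
          simp only [PiLp.smul_apply, e2, hl] at this
          simp at this
      | cast u =>
        induction v using Fin.lastCases with
        | last =>
          simp only [Fin.lastCases_last, Fin.lastCases_castSucc]
          intro hc
          have h4 := congrArg (fun z => z (Fin.last d)) hc
          simp only [PiLp.smul_apply, e2, hl] at h4
          have h5 : c = 0 := by simpa using h4.symm
          rw [h5, zero_smul] at hc
          exact h1 u (he0 _ hc)
        | cast v =>
          simp only [Fin.lastCases_castSucc]
          intro hc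
          exact h2 u v (fun h => huv (by rw [h])) c (hinj _ _ _ hc)
    · intro u v huv
      induction u using Fin.lastCases with
      | last =>
        induction v using Fin.lastCases with
        | last => exact absurd huv (G'.loopless.irrefl _)
        | cast v =>
          simp only [Fin.lastCases_last, Fin.lastCases_castSucc]
          rw [real_inner_comm]
          exact hel _
      | cast u =>
        induction v using Fin.lastCases with
        | last =>
          simp only [Fin.lastCases_last, Fin.lastCases_castSucc]
          exact hel _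
        | cast v =>
          simp only [Fin.lastCases_castSucc]
          rw [hinner]
          exact h3 u v ((hold u v).1 huv)

end Pool.Agent.Y605.OD
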