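import Pool.Agent.H670R2.OrthMem
import Pool.Agent.Y605.OD.Geo

/-!
# The existence of an orthogonal representation in `ℝ^D` belongs to `∃ℝ`
-/

namespace Pool.Agent.NPC.Y605OD

open Pool.Agent.NPC Pool.Agent.NPC.ER Pool.Agent.H670R2 Pool.Agent.Y605.OD
open Pool.Agent.NPC.H670R2 (chk chk_iff poly_chk conj holds_conj poly_conj ff not_etr_ff poly_not
  poly_and poly_eq poly_tadd poly_tmul poly_tvar)

/-- the variable of the `j`-th coordinate of the vector of vertex `v` -/
def cv (D v j : ℕ) : Tm := Tm.var (D * v + j)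

/-- the vector of `v` is nonzero -/
def nzF (D v : ℕ) : Fm :=
  Fm.not (conj ((List.range D).map (fun j => Fm.eq (cv D v j) Tm.zero)))

/-- the sum of the first `k` products of coordinates -/
def dotT (D u v : ℕ) : ℕ → Tm
  | 0 => Tm.zero
  | k + 1 => Tm.add (dotT D u v k) (Tm.mul (cv D u k) (cv D v k))

/-- the vectors of `u` and `v` are orthogonal -/
def dotF (D u v : ℕ) : Fm := Fm.eq (dotT D u v D) Tm.zero

/-- the minor of rows `u`, `v` with columns `i`, `j` vanishes -/
def minF (D u v i j : ℕ) : Fm :=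
  Fm.eq (Tm.mul (cv D u i) (cv D v j)) (Tm.mul (cv D u j) (cv D v i))

/-- the pairs of coordinates -/
def prs (D : ℕ) : List (ℕ × ℕ) :=
  (List.range D).flatMap (fun i => (List.range D).map (fun j => (i, j)))

/-- the vectors of `u` and `v` are not parallel -/
def npF (D u v : ℕ) : Fm := Fm.not (conj ((prs D).map (fun p => minF D u v p.1 p.2)))

/-- the list of conditions -/
def cnds (D : ℕ) (L : List (List ℕ)) : List Fm :=
  ((List.range L.length).map (nzF D) ++
    (List.range L.length).flatMap fun u =>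
      ((List.range L.length).filter fun v => !decide (v = u)).map fun v => npF D u v) ++
    L.zipIdx.flatMap fun p => p.1.map fun v => dotF D p.2 v

/-- the formula for a list of adjacency lists -/
def orthF (D : ℕ) (L : List (List ℕ)) : Fm := if chk L = true then conj (cnds D L) else ff

theorem holds_not (x : ℕ → ℝ) (f : Fm) : (Fm.not f).Holds x ↔ ¬ f.Holds x := by
  simp [Fm.Holds]

theorem holds_nzF (D : ℕ) (x : ℕ → ℝ) (v : ℕ) : (nzF D v).Holds x ↔
    ¬ ∀ j < D, x (D * v + j) = 0 := by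
  unfold nzF
  rw [holds_not, holds_conj]
  simp [Fm.Holds, Tm.eval, cv]

theorem eval_dotT (D : ℕ) (x : ℕ → ℝ) (u v k : ℕ) : (dotT D u v k).eval x =
    ∑ j ∈ Finset.range k, x (D * u + j) * x (D * v + j) := by
  induction k with
  | zero => simp [dotT, Tm.eval]
  | succ k ih =>
    rw [Finset.sum_range_succ, ← ih]
    simp [dotT, Tm.eval, cv]

theorem holds_dotF (D : ℕ) (x : ℕ → ℝ) (u v : ℕ) : (dotF D u v).Holds x ↔
    ∑ j ∈ Finset.range D, x (D * u + j) * x (D * v + j) = 0 := by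
  rw [← eval_dotT]
  simp [dotF, Fm.Holds, Tm.eval]

theorem mem_prs {D : ℕ} {p : ℕ × ℕ} : p ∈ prs D ↔ p.1 < D ∧ p.2 < D := by
  obtain ⟨i, j⟩ := p
  simp [prs]

theorem holds_npF (D : ℕ) (x : ℕ → ℝ) (u v : ℕ) : (npF D u v).Holds x ↔
    ¬ ∀ i < D, ∀ j < D, x (D * u + i) * x (D * v + j) = x (D * u + j) * x (D * v + i) := by
  unfold npF
  rw [holds_not, holds_conj, not_iff_not]
  constructor
  · intro h i hi j hj
    have := h (minF D u v i j) (List.mem_map.2 ⟨(i, j), mem_prs.2 ⟨hi, hj⟩, rfl⟩)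
    simpa [minF, Fm.Holds, Tm.eval, cv] using this
  · intro h φ hφ
    obtain ⟨p, hp, rfl⟩ := List.mem_map.1 hφ
    obtain ⟨h1, h2⟩ := mem_prs.1 hp
    simpa [minF, Fm.Holds, Tm.eval, cv] using h _ h1 _ h2

/-- the conditions, in words -/
theorem holds_cnds (D : ℕ) (x : ℕ → ℝ) (L : List (List ℕ)) : (conj (cnds D L)).Holds x ↔
    (∀ v < L.length, (nzF D v).Holds x) ∧
    (∀ u < L.length, ∀ v < L.length, v ≠ u → (npF D u v).Holds x) ∧
    (∀ u < L.length, ∀ v ∈ L.getD u [], (dotF D u v).Holds x) := by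
  rw [holds_conj]
  unfold cnds
  simp only [List.mem_append, List.mem_map, List.mem_range, List.mem_flatMap, List.mem_filter,
    Bool.not_eq_true', decide_eq_false_iff_not]
  constructor
  · intro h
    refine ⟨fun v hv => h _ (Or.inl (Or.inl ⟨v, hv, rfl⟩)), fun u hu v hv huv =>
      h _ (Or.inl (Or.inr ⟨u, hu, v, ⟨hv, huv⟩, rfl⟩)), fun u hu v hv => h _ (Or.inr ?_)⟩
    refine ⟨(L.getD u [], u), ?_, v, hv, rfl⟩
    rw [List.mem_zipIdx_iff_getElem?]
    simp [hu]
  · rintro ⟨h1, h2, h3⟩ φ ((⟨v, hv, rfl⟩ | ⟨u, hu, v, ⟨hv, huv⟩, rfl⟩) | ⟨⟨l, u⟩, hp, v, hv, rfl⟩)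
    · exact h1 v hv
    · exact h2 u hu v hv huv
    · rw [List.mem_zipIdx_iff_getElem?] at hp
      obtain ⟨h4, h5⟩ := List.getElem?_eq_some_iff.1 hp
      refine h3 u h4 v ?_
      rw [List.getD_eq_getElem _ _ h4, h5]
      exact hv

/-- two vectors, the second one nonzero, are parallel iff the minors vanish -/
theorem par_iff {D : ℕ} {a b : EuclideanSpace ℝ (Fin D)} (hb : b ≠ 0) :
    (∃ c : ℝ, a = c • b) ↔ ∀ i j, a i * b j = a j * b i := by
  constructor
  · rintro ⟨c, rfl⟩ i j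
    simp only [PiLp.smul_apply, smul_eq_mul]
    ring
  · intro h
    have hb' : ∃ j, b j ≠ 0 := by
      by_contra hcon
      push Not at hcon
      refine hb ?_
      ext i
      simpa using hcon i
    obtain ⟨j, hj⟩ := hb'
    refine ⟨a j / b j, ?_⟩
    ext i
    simp only [PiLp.smul_apply, smul_eq_mul]
    have := h i j
    field_simp
    linarith

/-- the vector of a vertex, read off from an assignment -/
noncomputable def vecOf (D : ℕ) (x : ℕ → ℝ) (v : ℕ) : EuclideanSpace ℝ (Fin D) :=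
  WithLp.toLp 2 (fun j => x (D * v + j.val))

theorem vecOf_apply (D : ℕ) (x : ℕ → ℝ) (v : ℕ) (j : Fin D) :
    vecOf D x v j = x (D * v + j.val) := rfl

theorem vecOf_ne (D : ℕ) (x : ℕ → ℝ) (v : ℕ) : vecOf D x v ≠ 0 ↔ (nzF D v).Holds x := by
  rw [holds_nzF, not_iff_not]
  constructor
  · intro h j hj
    have h0 := congrArg (fun w => w ⟨j, hj⟩) h
    simpa [vecOf_apply] using h0
  · intro h
    ext i
    simpa [vecOf_apply] using h i.val i.isLt

theorem vecOf_inner (D : ℕ) (x : ℕ → ℝ) (u v : ℕ) :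
    inner ℝ (vecOf D x u) (vecOf D x v) = 0 ↔ (dotF D u v).Holds x := by
  rw [holds_dotF]
  have : inner ℝ (vecOf D x u) (vecOf D x v) =
      ∑ j ∈ Finset.range D, x (D * u + j) * x (D * v + j) := by
    rw [PiLp.inner_apply, ← Fin.sum_univ_eq_sum_range (fun j => x (D * u + j) * x (D * v + j)) D]
    refine Finset.sum_congr rfl fun j _ => ?_
    rw [vecOf_apply, vecOf_apply]
    simp [mul_comm]
  rw [this]

theorem vecOf_par (D : ℕ) (x : ℕ → ℝ) (u v : ℕ) (hv : vecOf D x v ≠ 0) :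
    (∀ c : ℝ, vecOf D x u ≠ c • vecOf D x v) ↔ (npF D u v).Holds x := by
  rw [holds_npF, ← not_exists, not_iff_not, par_iff hv]
  simp only [vecOf_apply]
  exact ⟨fun h i hi j hj => h ⟨i, hi⟩ ⟨j, hj⟩, fun h i j => h i.val i.isLt j.val j.isLt⟩

/-- an assignment representing given vectors -/
noncomputable def asg (D : ℕ) {n : ℕ} (φ : Fin n → EuclideanSpace ℝ (Fin D)) (k : ℕ) : ℝ :=
  if h : k / D < n ∧ k % D < D then φ ⟨k / D, h.1⟩ ⟨k % D, h.2⟩ else 0

theorem vecOf_asg (D : ℕ) {n : ℕ} (φ : Fin n → EuclideanSpace ℝ (Fin D)) (v : ℕ) (hv : v < n) :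
    vecOf D (asg D φ) v = φ ⟨v, hv⟩ := by
  ext j
  have hD : 0 < D := by have := j.isLt; omega
  have h1 : (D * v + j.val) / D = v := by
    rw [Nat.mul_add_div hD, Nat.div_eq_of_lt j.isLt, add_zero]
  have h2 : (D * v + j.val) % D = j.val := by
    rw [Nat.mul_add_mod, Nat.mod_eq_of_lt j.isLt]
  rw [vecOf_apply]
  unfold asg
  have g1 : (D * v + j.val) / D < n := by rw [h1]; exact hv
  have g2 : (D * v + j.val) % D < D := by rw [h2]; exact j.isLt
  rw [dif_pos ⟨g1, g2⟩]
  have e1 : (⟨(D * v + j.val) / D, g1⟩ : Fin n) = ⟨v, hv⟩ := Fin.ext h1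
  have e2 : (⟨(D * v + j.val) % D, g2⟩ : Fin D) = j := Fin.ext h2
  rw [e1, e2]

/-- The graph with adjacency lists `L` has an orthogonal representation in `ℝ^D`. -/
def OrthP (D : ℕ) (L : List (List ℕ)) : Prop :=
  ∃ h : IsGraph L, ∃ φ : Fin L.length → EuclideanSpace ℝ (Fin D), IsOrthRepIn D (graphOf L h) φ

theorem orthF_correct (D : ℕ) (L : List (List ℕ)) : OrthP D L ↔ ETR (orthF D L) := by
  unfold orthF OrthP
  by_cases hc : chk L = true
  · rw [if_pos hc]
    have hG := (chk_iff L).1 hc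
    constructor
    · rintro ⟨h, φ, h1, h2, h3⟩
      refine ⟨asg D φ, (holds_cnds _ _ _).2 ⟨fun v hv => ?_, fun u hu v hv huv => ?_,
        fun u hu v hv => ?_⟩⟩
      · rw [← vecOf_ne, vecOf_asg D φ v hv]
        exact h1 _
      · rw [← vecOf_par, vecOf_asg D φ v hv, vecOf_asg D φ u hu]
        · intro c
          refine h2 ⟨u, hu⟩ ⟨v, hv⟩ (fun e => huv ?_) c
          exact (congrArg Fin.val e).symm
        · rw [vecOf_asg D φ v hv]
          exact h1 _
      · have hv' := (hG u v hu hv).1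
        rw [← vecOf_inner, vecOf_asg D φ v hv', vecOf_asg D φ u hu]
        exact h3 ⟨u, hu⟩ ⟨v, hv'⟩ hv
    · rintro ⟨x, hx⟩
      obtain ⟨h1, h2, h3⟩ := (holds_cnds _ _ _).1 hx
      refine ⟨hG, fun v => vecOf D x v.1, fun v => ?_, fun u v huv => ?_, fun u v huv => ?_⟩
      · exact (vecOf_ne D x v.1).2 (h1 v.1 v.2)
      · refine (vecOf_par D x u.1 v.1 ((vecOf_ne D x v.1).2 (h1 v.1 v.2))).2
          (h2 u.1 u.2 v.1 v.2 ?_)
        intro e
        exact huv (Fin.ext e.symm)
      · exact (vecOf_inner D x u.1 v.1).2 (h3 u.1 u.2 v.1 huv)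
  · rw [if_neg hc]
    constructor
    · rintro ⟨h, -⟩
      exact absurd ((chk_iff L).2 h) hc
    · intro h
      exact absurd h not_etr_ff

/-! ### Polynomial time -/

section

variable {α : Type} [TEnc α]

theorem poly_cv (D : ℕ) {v : α → ℕ} (hv : Poly v) {j : α → ℕ} (hj : Poly j) :
    Poly (fun a => cv D (v a) (j a)) :=
  poly_tvar (Poly.add (Poly.mul (Poly.const D) hv) hj)

theorem poly_nzF (D : ℕ) {v : α → ℕ} (hv : Poly v) : Poly (fun a => nzF D (v a)) := by
  refine poly_not (poly_conj ?_)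
  exact Poly.map (F := fun (a : α) (j : ℕ) => Fm.eq (cv D (v a) j) Tm.zero)
    (Poly.const (List.range D)) (poly_eq (poly_cv D (hv.comp (Poly.fst Poly.id))
      (Poly.snd Poly.id)) (Poly.const _))

theorem poly_dotT (D : ℕ) {u v : α → ℕ} (hu : Poly u) (hv : Poly v) (k : ℕ) :
    Poly (fun a => dotT D (u a) (v a) k) := by
  induction k with
  | zero => exact Poly.const Tm.zero
  | succ k ih =>
    exact poly_tadd ih (poly_tmul (poly_cv D hu (Poly.const k)) (poly_cv D hv (Poly.const k)))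

theorem poly_dotF (D : ℕ) {u v : α → ℕ} (hu : Poly u) (hv : Poly v) :
    Poly (fun a => dotF D (u a) (v a)) :=
  poly_eq (poly_dotT D hu hv D) (Poly.const _)

theorem poly_npF (D : ℕ) {u v : α → ℕ} (hu : Poly u) (hv : Poly v) :
    Poly (fun a => npF D (u a) (v a)) := by
  refine poly_not (poly_conj ?_)
  refine Poly.map (F := fun (a : α) (p : ℕ × ℕ) => minF D (u a) (v a) p.1 p.2)
    (Poly.const (prs D)) ?_
  have hu' : Poly (fun q : α × (ℕ × ℕ) => u q.1) := hu.comp (Poly.fst Poly.id)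
  have hv' : Poly (fun q : α × (ℕ × ℕ) => v q.1) := hv.comp (Poly.fst Poly.id)
  have h1 : Poly (fun q : α × (ℕ × ℕ) => q.2.1) := Poly.fst (Poly.snd Poly.id)
  have h2 : Poly (fun q : α × (ℕ × ℕ) => q.2.2) := Poly.snd (Poly.snd Poly.id)
  exact poly_eq (poly_tmul (poly_cv D hu' h1) (poly_cv D hv' h2))
    (poly_tmul (poly_cv D hu' h2) (poly_cv D hv' h1))

end

theorem poly_cnds (D : ℕ) : Poly (cnds D) := by
  unfold cnds
  have hr : Poly (fun L : List (List ℕ) => List.range L.length) := Poly.range_length Poly.id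
  refine Poly.append (Poly.append ?_ ?_) ?_
  · exact Poly.map (F := fun _ v => nzF D v) hr (poly_nzF D (Poly.snd Poly.id))
  · refine Poly.flatMap (F := fun (L : List (List ℕ)) u =>
      ((List.range L.length).filter fun v => !decide (v = u)).map fun v => npF D u v) hr ?_
    refine Poly.map (l := fun q : List (List ℕ) × ℕ =>
      (List.range q.1.length).filter fun v => !decide (v = q.2))
      (F := fun q v => npF D q.2 v) ?_ (poly_npF D (Poly.snd (Poly.fst Poly.id))
        (Poly.snd Poly.id))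
    exact Poly.filter (l := fun q : List (List ℕ) × ℕ => List.range q.1.length)
      (p := fun q v => !decide (v = q.2)) (Poly.range_length (Poly.fst Poly.id))
      (Poly.not (Poly.decide_eq (Poly.snd Poly.id) (Poly.snd (Poly.fst Poly.id))))
  · refine Poly.flatMap (F := fun (_ : List (List ℕ)) (p : List ℕ × ℕ) =>
      p.1.map fun v => dotF D p.2 v) (Poly.zipIdx Poly.id) ?_
    exact Poly.map (l := fun q : List (List ℕ) × (List ℕ × ℕ) => q.2.1)
      (F := fun q v => dotF D q.2.2 v) (Poly.fst (Poly.snd Poly.id))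
      (poly_dotF D (Poly.snd (Poly.snd (Poly.fst Poly.id))) (Poly.snd Poly.id))

theorem poly_orthF (D : ℕ) : Poly (orthF D) :=
  Poly.ite (p := fun L => chk L = true) (Poly.decide_bool poly_chk) (poly_conj (poly_cnds D))
    (Poly.const _)

theorem mem (D : ℕ) : InER (lang (OrthP D)) :=
  Pool.Agent.NPC.H670R2.InER.of_poly (poly_orthF D) (orthF_correct D)

end Pool.Agent.NPC.Y605OD
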