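import Pool.Agent.H670R2.Hard
import Pool.Agent.Y605.OD.Mem

/-!
# Hardness in every dimension `d ≥ 3`: adding universal vertices
-/

namespace Pool.Agent.NPC.Y605OD

open Pool.Agent.NPC Pool.Agent.NPC.ER Pool.Agent.H670R2 Pool.Agent.Y605.OD
open Pool.Agent.NPC.H670R2 (chk chk_iff poly_chk occ poly_occ norm poly_norm norm_sat norm_below
  poly_red red)

/-- the adjacency lists after adding a universal vertex -/
def uni0 (L : List (List ℕ)) : List (List ℕ) :=
  L.map (fun l => L.length :: l) ++ [List.range L.length]

/-- the same, with a wrong list for a wrong list -/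
def uni (L : List (List ℕ)) : List (List ℕ) := if chk L = true then uni0 L else [[0]]

theorem length_uni0 (L : List (List ℕ)) : (uni0 L).length = L.length + 1 := by simp [uni0]

theorem getD_uni0_lt (L : List (List ℕ)) (u : ℕ) (hu : u < L.length) :
    (uni0 L).getD u [] = L.length :: L.getD u [] := by
  unfold uni0
  rw [List.getD_append _ _ _ _ (by simpa using hu), List.getD_eq_getElem _ _ (by simpa using hu),
    List.getElem_map, List.getD_eq_getElem _ _ hu]

theorem getD_uni0_last (L : List (List ℕ)) : (uni0 L).getD L.length [] = List.range L.length := by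
  unfold uni0
  rw [List.getD_append_right _ _ _ _ (by simp)]
  simp

theorem isGraph_uni0 {L : List (List ℕ)} (h : IsGraph L) : IsGraph (uni0 L) := by
  intro u v hu hv
  rw [length_uni0] at hu ⊢
  by_cases hul : u < L.length
  · rw [getD_uni0_lt L u hul, List.mem_cons] at hv
    rcases hv with rfl | hv
    · refine ⟨by omega, by omega, ?_⟩
      rw [getD_uni0_last, List.mem_range]
      exact hul
    · obtain ⟨h1, h2, h3⟩ := h u v hul hv
      refine ⟨by omega, h2, ?_⟩
      rw [getD_uni0_lt L v h1, List.mem_cons]
      exact Or.inr h3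
  · have hul' : u = L.length := by omega
    subst hul'
    rw [getD_uni0_last, List.mem_range] at hv
    refine ⟨by omega, by omega, ?_⟩
    rw [getD_uni0_lt L v hv, List.mem_cons]
    exact Or.inl rfl

/-- the graph of a list on `Fin m` -/
def graphOn (L : List (List ℕ)) (h : IsGraph L) (m : ℕ) (hm : L.length = m) :
    SimpleGraph (Fin m) where
  Adj u v := v.1 ∈ L.getD u.1 []
  symm := ⟨fun u v huv => (h u.1 v.1 (by rw [hm]; exact u.2) huv).2.2⟩
  loopless := ⟨fun u hu => (h u.1 u.1 (by rw [hm]; exact u.2) hu).2.1 rfl⟩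

theorem graphOn_iff (D : ℕ) (L : List (List ℕ)) (h : IsGraph L) (m : ℕ) (hm : L.length = m) :
    (∃ φ : Fin L.length → EuclideanSpace ℝ (Fin D), IsOrthRepIn D (graphOf L h) φ) ↔
      ∃ φ : Fin m → EuclideanSpace ℝ (Fin D), RepIn (EuclideanSpace ℝ (Fin D))
        (graphOn L h m hm) φ := by
  subst hm
  exact Iff.rfl

theorem uni_correct (D : ℕ) (L : List (List ℕ)) : OrthP (D + 1) (uni L) ↔ OrthP D L := by
  unfold uni
  by_cases hc : chk L = true
  · rw [if_pos hc]
    have hG := (chk_iff L).1 hc
    have hG' := isGraph_uni0 hG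
    have key := rep_succ (d := D) (graphOn L hG L.length rfl)
      (graphOn (uni0 L) hG' (L.length + 1) (length_uni0 L)) (by
        intro u v
        change v.castSucc.val ∈ (uni0 L).getD u.castSucc.val [] ↔ v.val ∈ L.getD u.val []
        rw [Fin.val_castSucc, Fin.val_castSucc, getD_uni0_lt L _ u.isLt, List.mem_cons]
        have := v.isLt
        constructor
        · rintro (h | h)
          · omega
          · exact h
        · exact Or.inr) (by
        intro u
        change (Fin.last L.length).val ∈ (uni0 L).getD u.castSucc.val []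
        rw [Fin.val_castSucc, Fin.val_last, getD_uni0_lt L _ u.isLt, List.mem_cons]
        exact Or.inl rfl)
    constructor
    · rintro ⟨h, hφ⟩
      refine ⟨hG, (graphOn_iff D L hG _ rfl).2 (key.1 ?_)⟩
      exact (graphOn_iff (D + 1) (uni0 L) h _ (length_uni0 L)).1 hφ
    · rintro ⟨h, hφ⟩
      refine ⟨hG', (graphOn_iff (D + 1) (uni0 L) hG' _ (length_uni0 L)).2 (key.2 ?_)⟩
      exact (graphOn_iff D L h _ rfl).1 hφ
  · rw [if_neg hc]
    constructor
    · rintro ⟨h, -⟩
      exact absurd rfl (h 0 0 (by simp) (by simp)).2.1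
    · rintro ⟨h, -⟩
      exact absurd ((chk_iff L).2 h) hc

theorem poly_uni : Poly uni := by
  refine Poly.ite (p := fun L => chk L = true) (Poly.decide_bool poly_chk) ?_ (Poly.const _)
  unfold uni0
  refine Poly.append ?_ (Poly.cons (Poly.range_length Poly.id) (Poly.const []))
  exact Poly.map (F := fun (L : List (List ℕ)) (l : List ℕ) => L.length :: l) Poly.id
    (Poly.cons (Poly.length (Poly.fst Poly.id)) (Poly.snd Poly.id))

theorem iter_correct (D m : ℕ) (L : List (List ℕ)) : OrthP (D + m) (uni^[m] L) ↔ OrthP D L := by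
  induction m with
  | zero => exact Iff.rfl
  | succ m ih =>
    rw [Function.iterate_succ_apply', ← ih]
    exact uni_correct (D + m) _

theorem poly_iter {α : Type} [TEnc α] {f : α → List (List ℕ)} (hf : Poly f) (m : ℕ) :
    Poly (fun a => uni^[m] (f a)) := by
  induction m with
  | zero => exact hf
  | succ m ih =>
    refine (poly_uni.comp ih).congr fun a => ?_
    rw [Function.iterate_succ_apply']

theorem hard (m : ℕ) : ERHard (lang (OrthP (3 + m))) := by
  refine ERHard.of_sys (f := fun S => uni^[m] (red (occ S).length (norm S)))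
    (poly_iter (poly_red (UPoly.length (poly_occ Poly.id)) (poly_norm Poly.id)) m) ?_
  intro S
  rw [norm_sat, iter_correct]
  exact red_correct (norm_below S)

theorem complete (d : ℕ) (hd : 3 ≤ d) : ERComplete (lang (OrthP d)) := by
  obtain ⟨m, rfl⟩ : ∃ m, d = 3 + m := ⟨d - 3, by omega⟩
  exact ⟨mem _, hard m⟩

end Pool.Agent.NPC.Y605OD
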